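import Mathlib

open Set

namespace Pool.Agent.Results.MP_a09a4b_an.HighLow

/-- A pure searcher strategy: an infinite binary tree of guesses.  `S l` is the guess made after
the answers `l` (oldest first; `true` = too high, `false` = too low). -/
abbrev Strat := List Bool → ℝ

/-- `cost S h n = |g_{n+1} - h|` if the `(n+1)`-st guess is made, and `0` if play has stopped. -/
noncomputable def cost : Strat → ℝ → ℕ → ℝ
  | S, h, 0 => |S [] - h|
  | S, h, n + 1 => if S [] = h then 0 else cost (fun l => S (decide (h < S []) :: l)) h n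

/-- The payoff `P(h)`, possibly infinite. -/
noncomputable def payoff (S : Strat) (h : ℝ) : ENNReal := ∑' n, ENNReal.ofReal (cost S h n)

/-- The strategy that guesses `lam k * a + (1 - lam k) * b` in state `k` on the interval `[a,b]`. -/
noncomputable def alp (lam : ℤ → ℝ) : ℤ → ℝ → ℝ → Strat
  | k, a, b, [] => lam k * a + (1 - lam k) * b
  | k, a, b, true :: l => alp lam (k - 1) a (lam k * a + (1 - lam k) * b) l
  | k, a, b, false :: l => alp lam (k + 1) (lam k * a + (1 - lam k) * b) b l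

/-- `lam` is Alpern's family and `v` the common value of the payoff off the guesses. -/
def IsAlpern (lam : ℤ → ℝ) (v : ENNReal) : Prop :=
  (∀ k, 0 < lam k ∧ lam k < 1) ∧
  ∀ h : ℝ, 0 ≤ h → h ≤ 1 → h ∉ range (alp lam 0 0 1) → payoff (alp lam 0 0 1) h = v

/-- A mixed strategy all of whose pure strategies guess in `[0,1]`. -/
def Legal (σ : PMF Strat) : Prop := ∀ S ∈ σ.support, ∀ l, 0 ≤ S l ∧ S l ≤ 1

/-- The guaranteed cost `sup_{h ∈ [0,1]} E_σ[P(h)]`. -/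
noncomputable def guaranteed (σ : PMF Strat) : ENNReal :=
  ⨆ (h : ℝ) (_ : 0 ≤ h ∧ h ≤ 1), ∑' S, σ S * payoff S h

noncomputable def ps (S : Strat) (h : ℝ) (n : ℕ) : ℝ := ∑ i ∈ Finset.range n, cost S h i

lemma cost_nonneg (n : ℕ) : ∀ (S : Strat) (h : ℝ), 0 ≤ cost S h n := by
  induction n with
  | zero => intro S h; exact abs_nonneg _
  | succ n ih => intro S h; simp only [cost]; split_ifs; exacts [le_rfl, ih _ _]

lemma ps_succ (S : Strat) (h : ℝ) (n : ℕ) : ps S h (n + 1) =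
    |S [] - h| + if S [] = h then 0 else ps (fun l => S (decide (h < S []) :: l)) h n := by
  rw [ps, Finset.sum_range_succ', add_comm]
  simp only [cost, ps]
  split_ifs <;> simp

lemma ps_nonneg (S : Strat) (h : ℝ) (n : ℕ) : 0 ≤ ps S h n :=
  Finset.sum_nonneg fun i _ => cost_nonneg i S h

lemma ps_succ_le (S : Strat) (h : ℝ) (n : ℕ) : ps S h (n + 1) ≤
    |S [] - h| + ps (fun l => S (decide (h < S []) :: l)) h n := by
  rw [ps_succ]; split_ifs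
  · linarith [ps_nonneg (fun l => S (decide (h < S []) :: l)) h n]
  · exact le_rfl

lemma payoff_le (S : Strat) (h c : ℝ) (H : ∀ n, ps S h n ≤ c) : payoff S h ≤ ENNReal.ofReal c := by
  rw [payoff, ENNReal.tsum_eq_iSup_nat]
  refine iSup_le fun n => ?_
  rw [← ENNReal.ofReal_sum_of_nonneg (fun i _ => cost_nonneg i S h)]
  exact ENNReal.ofReal_le_ofReal (H n)

lemma le_payoff (S : Strat) (h : ℝ) (n : ℕ) : ENNReal.ofReal (ps S h n) ≤ payoff S h := by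
  rw [ps, ENNReal.ofReal_sum_of_nonneg (fun i _ => cost_nonneg i S h)]
  exact ENNReal.sum_le_tsum _

def w : ℕ → ℤ → ℤ
  | 0, k => max k 0 * 100000
  | n + 1, k => max (max k 0 * 100000)
      (w n (k + 1) * (100000 + w n (k - 1)) / (100000 + w n (k - 1) + w n (k + 1) - k * 100000))

lemma w_ge (n : ℕ) (k : ℤ) : max k 0 * 100000 ≤ w n k := by
  cases n with
  | zero => exact le_rfl
  | succ n => exact le_max_left _ _

lemma base (N : Set ℝ) (hN : N.Countable) (k : ℤ) (a b ε : ℝ) (hab : a < b) (hε : 0 < ε) :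
    ∃ h, a < h ∧ h < b ∧ h ∉ N ∧ (b - a) * ((max k 0 : ℤ) : ℝ) - ε ≤ k * (h - a) := by
  have hd := hN.dense_compl ℝ
  set δ : ℝ := ε / (|(k : ℝ)| + 1) with hδ
  have hk : 0 < |(k : ℝ)| + 1 := by positivity
  have hδ0 : 0 < δ := by positivity
  have hδ1 : δ * (|(k : ℝ)| + 1) = ε := by rw [hδ]; field_simp
  rcases le_total 0 k with h0 | h0
  · have h0' : (0 : ℝ) ≤ k := by exact_mod_cast h0
    obtain ⟨h, hh, h1, h2⟩ := hd.exists_between (show max a (b - δ) < b from max_lt hab (by linarith))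
    refine ⟨h, lt_of_le_of_lt (le_max_left _ _) h1, h2, hh, ?_⟩
    rw [max_eq_left h0]
    rw [abs_of_nonneg h0'] at hδ1
    have : b - δ < h := lt_of_le_of_lt (le_max_right _ _) h1
    nlinarith
  · have h0' : (k : ℝ) ≤ 0 := by exact_mod_cast h0
    obtain ⟨h, hh, h1, h2⟩ := hd.exists_between (show a < min b (a + δ) from lt_min hab (by linarith))
    refine ⟨h, h1, lt_of_lt_of_le h2 (min_le_left _ _), hh, ?_⟩
    rw [max_eq_right h0]
    rw [abs_of_nonpos h0'] at hδ1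
    have : h < a + δ := lt_of_lt_of_le h2 (min_le_right _ _)
    push_cast
    nlinarith

lemma lower (lam : ℤ → ℝ) (hl : ∀ k, 0 < lam k ∧ lam k < 1) (N : Set ℝ) (hN : N.Countable)
    (ε : ℝ) (hε : 0 < ε) (n : ℕ) : ∀ (k : ℤ) (a b : ℝ), a < b → range (alp lam k a b) ⊆ N →
    ∃ h, a < h ∧ h < b ∧ h ∉ N ∧
      (b - a) * ((w n k : ℝ) / 100000) - ε ≤ ps (alp lam k a b) h n + k * (h - a) := by
  have hb : ∀ (n : ℕ) (k : ℤ) (a b : ℝ), a < b → ∃ h, a < h ∧ h < b ∧ h ∉ N ∧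
      (b - a) * (((max k 0 * 100000 : ℤ) : ℝ) / 100000) - ε ≤
        ps (alp lam k a b) h n + k * (h - a) := by
    intro n k a b hab
    obtain ⟨h, h1, h2, h3, h4⟩ := base N hN k a b ε hab hε
    refine ⟨h, h1, h2, h3, ?_⟩
    have := ps_nonneg (alp lam k a b) h n
    rw [Int.cast_mul]
    have e : ((max k 0 : ℤ) : ℝ) * ((100000 : ℤ) : ℝ) / 100000 = ((max k 0 : ℤ) : ℝ) := by
      push_cast; ring
    rw [e]; linarith
  induction n with
  | zero => intro k a b hab _; exact hb 0 k a b hab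
  | succ n ih =>
    intro k a b hab hr
    rcases le_total (w n (k + 1) * (100000 + w n (k - 1)) /
      (100000 + w n (k - 1) + w n (k + 1) - k * 100000)) (max k 0 * 100000) with hc | hc
    · simp only [w]; rw [max_eq_left hc]; exact hb _ k a b hab
    simp only [w]; rw [max_eq_right hc]
    set g := lam k * a + (1 - lam k) * b with hg
    obtain ⟨l0, l1⟩ := hl k
    have hag : a < g := by rw [hg]; nlinarith
    have hgb : g < b := by rw [hg]; nlinarith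
    have hgN : g ∈ N := hr ⟨[], rfl⟩
    have hu : (0 : ℤ) ≤ w n (k - 1) := le_trans (by have := le_max_right (k - 1) 0; omega) (w_ge n _)
    have hv : k * 100000 ≤ w n (k + 1) :=
      le_trans (by have := le_max_left (k + 1) 0; omega) (w_ge n _)
    have hv0 : 0 ≤ w n (k + 1) := le_trans (by have := le_max_right (k + 1) 0; omega) (w_ge n _)
    have hdiv := Int.ediv_mul_le (w n (k + 1) * (100000 + w n (k - 1)))
      (b := 100000 + w n (k - 1) + w n (k + 1) - k * 100000) (by omega)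
    set W := w n (k + 1) * (100000 + w n (k - 1)) /
      (100000 + w n (k - 1) + w n (k + 1) - k * 100000) with hW
    have hdiv' : (W : ℝ) * (100000 + (w n (k - 1) : ℝ) + (w n (k + 1) : ℝ) - k * 100000) ≤
        (w n (k + 1) : ℝ) * (100000 + (w n (k - 1) : ℝ)) := by exact_mod_cast hdiv
    have hu' : (0 : ℝ) ≤ (w n (k - 1) : ℝ) := by exact_mod_cast hu
    have hv' : (k : ℝ) * 100000 ≤ (w n (k + 1) : ℝ) := by exact_mod_cast hv
    set u : ℝ := (w n (k - 1) : ℝ) with hu''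
    set v : ℝ := (w n (k + 1) : ℝ) with hv''
    by_cases hcase : (b - a) * (W : ℝ) ≤ (g - a) * (100000 + u)
    · obtain ⟨h, h1, h2, h3, h4⟩ := ih (k - 1) a g hag (fun _ ⟨l, hl⟩ => hr ⟨true :: l, hl⟩)
      refine ⟨h, h1, h2.trans hgb, h3, ?_⟩
      have e0 : alp lam k a b [] = g := rfl
      rw [ps_succ, e0, if_neg (ne_of_gt h2), abs_of_pos (sub_pos.2 h2)]
      have e1 : (fun l => alp lam k a b (decide (h < g) :: l)) = alp lam (k - 1) a g := by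
        funext l; rw [decide_eq_true h2]; rfl
      rw [e1]
      push_cast at h4
      nlinarith
    · obtain ⟨h, h1, h2, h3, h4⟩ := ih (k + 1) g b hgb (fun _ ⟨l, hl⟩ => hr ⟨false :: l, hl⟩)
      refine ⟨h, hag.trans h1, h2, h3, ?_⟩
      have e0 : alp lam k a b [] = g := rfl
      rw [ps_succ, e0, if_neg (ne_of_lt h1), abs_of_neg (sub_neg.2 h1)]
      have e1 : (fun l => alp lam k a b (decide (h < g) :: l)) = alp lam (k + 1) g b := by
        funext l; rw [decide_eq_false (not_lt.2 h1.le)]; rfl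
      rw [e1]
      push_cast at h4
      have hlt := not_le.1 hcase
      have k1 : (b - a) * (W : ℝ) ≤ (b - g) * v + k * 100000 * (g - a) := by
        have k2 : (g - a) * (100000 + u) * (v - k * 100000) ≤ (b - a) * W * (v - k * 100000) :=
          mul_le_mul_of_nonneg_right hlt.le (by linarith)
        have k3 := mul_le_mul_of_nonneg_left hdiv' (sub_pos.2 hab).le
        have k4 : (100000 + u) * ((b - a) * (W : ℝ)) ≤
            (100000 + u) * ((b - g) * v + k * 100000 * (g - a)) := by nlinarith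
        exact le_of_mul_le_mul_left k4 (by linarith)
      nlinarith

lemma alp_ge (lam : ℤ → ℝ) (v : ENNReal) (H : IsAlpern lam v) : ENNReal.ofReal 0.623 ≤ v := by
  obtain ⟨h, h1, h2, h3, h4⟩ := lower lam H.1 _ (countable_range (alp lam 0 0 1)) 0.0001
    (by norm_num) 7 0 0 1 one_pos subset_rfl
  have e : w 7 0 = 62358 := by decide +kernel
  rw [← H.2 h h1.le h2.le h3]
  refine le_trans (ENNReal.ofReal_le_ofReal ?_) (le_payoff _ h 7)
  rw [e] at h4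
  norm_num at h4 ⊢
  linarith

noncomputable def bis : ℝ → ℝ → Strat
  | a, b, [] => (a + b) / 2
  | a, b, true :: l => bis a ((a + b) / 2) l
  | a, b, false :: l => bis ((a + b) / 2) b l

lemma bis_mem (l : List Bool) : ∀ a b : ℝ, a ≤ b → a ≤ bis a b l ∧ bis a b l ≤ b := by
  induction l with
  | nil => intro a b h; simp only [bis]; constructor <;> linarith
  | cons c l ih =>
    intro a b h
    cases c
    · have := ih ((a + b) / 2) b (by linarith); simp only [bis]; constructor <;> linarith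
    · have := ih a ((a + b) / 2) (by linarith); simp only [bis]; constructor <;> linarith

lemma bis_ps (h : ℝ) (n : ℕ) : ∀ a b : ℝ, a ≤ h → h ≤ b → ps (bis a b) h n ≤ b - a := by
  induction n with
  | zero => intro a b h1 h2; simp only [ps, Finset.range_zero, Finset.sum_empty]; linarith
  | succ n ih =>
    intro a b h1 h2
    refine (ps_succ_le _ _ _).trans ?_
    have e0 : bis a b [] = (a + b) / 2 := rfl
    rw [e0]
    by_cases hc : h < (a + b) / 2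
    · have e1 : (fun l => bis a b (decide (h < (a + b) / 2) :: l)) = bis a ((a + b) / 2) := by
        funext l; simp [hc, bis]
      rw [e1, abs_of_pos (by linarith)]
      have := ih a ((a + b) / 2) h1 hc.le
      linarith
    · have e1 : (fun l => bis a b (decide (h < (a + b) / 2) :: l)) = bis ((a + b) / 2) b := by
        funext l; simp [hc, bis]
      rw [e1, abs_of_nonpos (by linarith)]
      have := ih ((a + b) / 2) b (not_lt.1 hc) h2
      linarith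

inductive Tr where
  | f : ℕ → Tr
  | n : ℕ → Tr → Tr → Tr

noncomputable def strat : Tr → Strat
  | .f j, l => bis (j / 256) ((j + 1) / 256) l
  | .n g _ _, [] => g / 256
  | .n _ a _, true :: l => strat a l
  | .n _ _ b, false :: l => strat b l

def ok : Tr → Bool
  | .f j => decide (j < 256)
  | .n g a b => decide (g < 256) && ok a && ok b

def lf : Tr → ℕ → ℕ
  | .f j, _ => j
  | .n g a b, j => if j < g then lf a j else lf b j

def val : Tr → ℕ → ℕ → ℕ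
  | .f _, _, _ => 0
  | .n g a b, j, x => if j < g then (g - x) + val a j x else (x - g) + val b j x

lemma strat_mem (t : Tr) (h : ok t = true) (l : List Bool) : 0 ≤ strat t l ∧ strat t l ≤ 1 := by
  induction t generalizing l with
  | f j =>
    have hj : j + 1 ≤ 256 := by simpa [ok] using h
    have hj' : (j : ℝ) + 1 ≤ 256 := by exact_mod_cast hj
    have h0 : (0 : ℝ) ≤ j := Nat.cast_nonneg j
    have := bis_mem l (j / 256) ((j + 1) / 256) (by linarith)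
    simp only [strat]
    constructor <;> linarith
  | n g a b iha ihb =>
    simp only [ok, Bool.and_eq_true, decide_eq_true_eq] at h
    match l with
    | [] =>
      have hj' : (g : ℝ) < 256 := by exact_mod_cast h.1.1
      have h0 : (0 : ℝ) ≤ g := Nat.cast_nonneg g
      simp only [strat]
      constructor <;> linarith
    | true :: l => exact iha h.1.2 l
    | false :: l => exact ihb h.2 l

lemma strat_ps (j : ℕ) (h : ℝ) (h1 : (j : ℝ) ≤ 256 * h) (h2 : 256 * h ≤ j + 1)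
    (h3 : ∀ g : ℕ, g < 256 → (h < g / 256 ↔ j < g)) (t : Tr) (ho : ok t = true) (hl : lf t j = j)
    (m : ℕ) : 256 * ps (strat t) h m ≤
      (j + 1 - 256 * h) * val t j j + (256 * h - j) * val t j (j + 1) + 1 := by
  induction t generalizing m with
  | f i =>
    have : i = j := hl
    subst this
    have := bis_ps h m (i / 256) ((i + 1) / 256) (by linarith) (by linarith)
    have e : strat (.f i) = bis (i / 256) ((i + 1) / 256) := by funext l; simp [strat]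
    rw [e]; simp only [val]; push_cast; linarith
  | n g a b iha ihb =>
    simp only [ok, Bool.and_eq_true, decide_eq_true_eq] at ho
    cases m with
    | zero =>
      simp only [ps, Finset.range_zero, Finset.sum_empty]
      have k1 : 0 ≤ j + 1 - 256 * h := by linarith
      have k2 : 0 ≤ 256 * h - j := by linarith
      rw [mul_zero]
      positivity
    | succ m =>
      have k := ps_succ_le (strat (.n g a b)) h m
      have e0 : strat (.n g a b) [] = g / 256 := rfl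
      rw [e0] at k
      by_cases hc : j < g
      · have hc' := (h3 g ho.1.1).2 hc
        have e1 : (fun l => strat (.n g a b) (decide (h < g / 256) :: l)) = strat a := by
          funext l; simp [hc', strat]
        rw [e1, abs_of_pos (by linarith)] at k
        have := iha ho.1.2 (by simpa [lf, hc] using hl) m
        simp only [val, if_pos hc]
        rw [Nat.cast_add, Nat.cast_add, Nat.cast_sub hc.le, Nat.cast_sub hc]
        push_cast
        nlinarith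
      · have hc' : ¬ h < g / 256 := fun hh => hc ((h3 g ho.1.1).1 hh)
        have e1 : (fun l => strat (.n g a b) (decide (h < g / 256) :: l)) = strat b := by
          funext l; simp [hc', strat]
        rw [e1, abs_of_nonpos (by linarith)] at k
        have := ihb ho.2 (by simpa [lf, hc] using hl) m
        simp only [val, if_neg hc]
        rw [Nat.cast_add, Nat.cast_add, Nat.cast_sub (not_lt.1 hc),
          Nat.cast_sub (Nat.le_succ_of_le (not_lt.1 hc))]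
        push_cast
        nlinarith

open Tr

def t0 : Tr :=
  n 115 (n 15 (n 1 (f 0) (n 4 (n 2 (f 1) (n 3 (f 2) (f 3))) (n 7 (n 5 (f 4) (n 6 (f 5) (f 6)))
  (n 11 (n 8 (f 7) (n 9 (f 8) (n 10 (f 9) (f 10)))) (n 13 (n 12 (f 11) (f 12)) (n 14 (f 13) (f
  14))))))) (n 54 (n 32 (n 23 (n 19 (n 17 (n 16 (f 15) (f 16)) (n 18 (f 17) (f 18))) (n 21 (n 20
  (f 19) (f 20)) (n 22 (f 21) (f 22)))) (n 27 (n 25 (n 24 (f 23) (f 24)) (n 26 (f 25) (f 26)))
  (n 29 (n 28 (f 27) (f 28)) (n 30 (f 29) (n 31 (f 30) (f 31)))))) (n 41 (n 36 (n 34 (n 33 (f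
  32) (f 33)) (n 35 (f 34) (f 35))) (n 38 (n 37 (f 36) (f 37)) (n 39 (f 38) (n 40 (f 39) (f
  40))))) (n 46 (n 43 (n 42 (f 41) (f 42)) (n 44 (f 43) (n 45 (f 44) (f 45)))) (n 50 (n 48 (n 47
  (f 46) (f 47)) (n 49 (f 48) (f 49))) (n 52 (n 51 (f 50) (f 51)) (n 53 (f 52) (f 53))))))) (n
  90 (n 71 (n 62 (n 58 (n 56 (n 55 (f 54) (f 55)) (n 57 (f 56) (f 57))) (n 60 (n 59 (f 58) (f
  59)) (n 61 (f 60) (f 61)))) (n 66 (n 64 (n 63 (f 62) (f 63)) (n 65 (f 64) (f 65))) (n 68 (n 67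
  (f 66) (f 67)) (n 69 (f 68) (n 70 (f 69) (f 70)))))) (n 81 (n 76 (n 74 (n 73 (n 72 (f 71) (f
  72)) (f 73)) (n 75 (f 74) (f 75))) (n 79 (n 78 (n 77 (f 76) (f 77)) (f 78)) (n 80 (f 79) (f
  80)))) (n 86 (n 84 (n 83 (n 82 (f 81) (f 82)) (f 83)) (n 85 (f 84) (f 85))) (n 88 (n 87 (f 86)
  (f 87)) (n 89 (f 88) (f 89)))))) (n 105 (n 98 (n 94 (n 92 (n 91 (f 90) (f 91)) (n 93 (f 92) (f
  93))) (n 96 (n 95 (f 94) (f 95)) (n 97 (f 96) (f 97)))) (n 102 (n 100 (n 99 (f 98) (f 99)) (n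
  101 (f 100) (f 101))) (n 104 (n 103 (f 102) (f 103)) (f 104)))) (n 111 (n 108 (n 107 (n 106 (f
  105) (f 106)) (f 107)) (n 110 (n 109 (f 108) (f 109)) (f 110))) (n 113 (n 112 (f 111) (f 112))
  (n 114 (f 113) (f 114)))))))) (n 219 (n 157 (n 134 (n 124 (n 120 (n 118 (n 117 (n 116 (f 115)
  (f 116)) (f 117)) (n 119 (f 118) (f 119))) (n 122 (n 121 (f 120) (f 121)) (n 123 (f 122) (f
  123)))) (n 129 (n 127 (n 125 (f 124) (n 126 (f 125) (f 126))) (n 128 (f 127) (f 128))) (n 131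
  (n 130 (f 129) (f 130)) (n 132 (f 131) (n 133 (f 132) (f 133)))))) (n 144 (n 139 (n 136 (n 135
  (f 134) (f 135)) (n 137 (f 136) (n 138 (f 137) (f 138)))) (n 141 (n 140 (f 139) (f 140)) (n
  142 (f 141) (n 143 (f 142) (f 143))))) (n 149 (n 146 (n 145 (f 144) (f 145)) (n 147 (f 146) (n
  148 (f 147) (f 148)))) (n 153 (n 151 (n 150 (f 149) (f 150)) (n 152 (f 151) (f 152))) (n 155
  (n 154 (f 153) (f 154)) (n 156 (f 155) (f 156))))))) (n 194 (n 174 (n 165 (n 161 (n 159 (n 158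
  (f 157) (f 158)) (n 160 (f 159) (f 160))) (n 163 (n 162 (f 161) (f 162)) (n 164 (f 163) (f
  164)))) (n 169 (n 167 (n 166 (f 165) (f 166)) (n 168 (f 167) (f 168))) (n 171 (n 170 (f 169)
  (f 170)) (n 172 (f 171) (n 173 (f 172) (f 173)))))) (n 184 (n 179 (n 176 (n 175 (f 174) (f
  175)) (n 178 (n 177 (f 176) (f 177)) (f 178))) (n 181 (n 180 (f 179) (f 180)) (n 182 (f 181)
  (n 183 (f 182) (f 183))))) (n 189 (n 187 (n 186 (n 185 (f 184) (f 185)) (f 186)) (n 188 (f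
  187) (f 188))) (n 192 (n 191 (n 190 (f 189) (f 190)) (f 191)) (n 193 (f 192) (f 193)))))) (n
  210 (n 203 (n 199 (n 197 (n 196 (n 195 (f 194) (f 195)) (f 196)) (n 198 (f 197) (f 198))) (n
  201 (n 200 (f 199) (f 200)) (n 202 (f 201) (f 202)))) (n 207 (n 205 (n 204 (f 203) (f 204)) (n
  206 (f 205) (f 206))) (n 209 (n 208 (f 207) (f 208)) (f 209)))) (n 215 (n 213 (n 212 (n 211 (f
  210) (f 211)) (f 212)) (n 214 (f 213) (f 214))) (n 217 (n 216 (f 215) (f 216)) (n 218 (f 217)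
  (f 218))))))) (n 251 (n 235 (n 227 (n 223 (n 221 (n 220 (f 219) (f 220)) (n 222 (f 221) (f
  222))) (n 225 (n 224 (f 223) (f 224)) (n 226 (f 225) (f 226)))) (n 231 (n 229 (n 228 (f 227)
  (f 228)) (n 230 (f 229) (f 230))) (n 233 (n 232 (f 231) (f 232)) (n 234 (f 233) (f 234))))) (n
  244 (n 239 (n 237 (n 236 (f 235) (f 236)) (n 238 (f 237) (f 238))) (n 242 (n 241 (n 240 (f
  239) (f 240)) (f 241)) (n 243 (f 242) (f 243)))) (n 249 (n 247 (n 246 (n 245 (f 244) (f 245))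
  (f 246)) (n 248 (f 247) (f 248))) (n 250 (f 249) (f 250))))) (n 255 (n 254 (n 253 (n 252 (f
  251) (f 252)) (f 253)) (f 254)) (f 255))))

def t1 : Tr :=
  n 146 (n 42 (n 6 (n 1 (f 0) (n 2 (f 1) (n 4 (n 3 (f 2) (f 3)) (n 5 (f 4) (f 5))))) (n 24 (n 15
  (n 10 (n 7 (f 6) (n 8 (f 7) (n 9 (f 8) (f 9)))) (n 12 (n 11 (f 10) (f 11)) (n 13 (f 12) (n 14
  (f 13) (f 14))))) (n 19 (n 17 (n 16 (f 15) (f 16)) (n 18 (f 17) (f 18))) (n 21 (n 20 (f 19) (f
  20)) (n 22 (f 21) (n 23 (f 22) (f 23)))))) (n 33 (n 28 (n 26 (n 25 (f 24) (f 25)) (n 27 (f 26)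
  (f 27))) (n 30 (n 29 (f 28) (f 29)) (n 31 (f 30) (n 32 (f 31) (f 32))))) (n 37 (n 35 (n 34 (f
  33) (f 34)) (n 36 (f 35) (f 36))) (n 39 (n 38 (f 37) (f 38)) (n 40 (f 39) (n 41 (f 40) (f
  41)))))))) (n 105 (n 72 (n 54 (n 47 (n 44 (n 43 (f 42) (f 43)) (n 45 (f 44) (n 46 (f 45) (f
  46)))) (n 50 (n 48 (f 47) (n 49 (f 48) (f 49))) (n 52 (n 51 (f 50) (f 51)) (n 53 (f 52) (f
  53))))) (n 62 (n 58 (n 56 (n 55 (f 54) (f 55)) (n 57 (f 56) (f 57))) (n 60 (n 59 (f 58) (f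
  59)) (n 61 (f 60) (f 61)))) (n 67 (n 64 (n 63 (f 62) (f 63)) (n 65 (f 64) (n 66 (f 65) (f
  66)))) (n 70 (n 68 (f 67) (n 69 (f 68) (f 69))) (n 71 (f 70) (f 71)))))) (n 91 (n 82 (n 77 (n
  74 (n 73 (f 72) (f 73)) (n 76 (n 75 (f 74) (f 75)) (f 76))) (n 80 (n 79 (n 78 (f 77) (f 78))
  (f 79)) (n 81 (f 80) (f 81)))) (n 87 (n 84 (n 83 (f 82) (f 83)) (n 86 (n 85 (f 84) (f 85)) (f
  86))) (n 89 (n 88 (f 87) (f 88)) (n 90 (f 89) (f 90))))) (n 99 (n 95 (n 93 (n 92 (f 91) (f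
  92)) (n 94 (f 93) (f 94))) (n 97 (n 96 (f 95) (f 96)) (n 98 (f 97) (f 98)))) (n 102 (n 101 (n
  100 (f 99) (f 100)) (f 101)) (n 104 (n 103 (f 102) (f 103)) (f 104)))))) (n 126 (n 116 (n 111
  (n 108 (n 107 (n 106 (f 105) (f 106)) (f 107)) (n 110 (n 109 (f 108) (f 109)) (f 110))) (n 114
  (n 113 (n 112 (f 111) (f 112)) (f 113)) (n 115 (f 114) (f 115)))) (n 121 (n 119 (n 118 (n 117
  (f 116) (f 117)) (f 118)) (n 120 (f 119) (f 120))) (n 124 (n 123 (n 122 (f 121) (f 122)) (f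
  123)) (n 125 (f 124) (f 125))))) (n 136 (n 131 (n 128 (n 127 (f 126) (f 127)) (n 130 (n 129 (f
  128) (f 129)) (f 130))) (n 133 (n 132 (f 131) (f 132)) (n 134 (f 133) (n 135 (f 134) (f
  135))))) (n 140 (n 138 (n 137 (f 136) (f 137)) (n 139 (f 138) (f 139))) (n 143 (n 141 (f 140)
  (n 142 (f 141) (f 142))) (n 144 (f 143) (n 145 (f 144) (f 145))))))))) (n 243 (n 206 (n 174 (n
  158 (n 151 (n 148 (n 147 (f 146) (f 147)) (n 149 (f 148) (n 150 (f 149) (f 150)))) (n 154 (n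
  152 (f 151) (n 153 (f 152) (f 153))) (n 156 (n 155 (f 154) (f 155)) (n 157 (f 156) (f 157)))))
  (n 166 (n 162 (n 160 (n 159 (f 158) (f 159)) (n 161 (f 160) (f 161))) (n 164 (n 163 (f 162) (f
  163)) (n 165 (f 164) (f 165)))) (n 170 (n 168 (n 167 (f 166) (f 167)) (n 169 (f 168) (f 169)))
  (n 172 (n 171 (f 170) (f 171)) (n 173 (f 172) (f 173)))))) (n 191 (n 183 (n 178 (n 176 (n 175
  (f 174) (f 175)) (n 177 (f 176) (f 177))) (n 181 (n 180 (n 179 (f 178) (f 179)) (f 180)) (n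
  182 (f 181) (f 182)))) (n 187 (n 185 (n 184 (f 183) (f 184)) (n 186 (f 185) (f 186))) (n 189
  (n 188 (f 187) (f 188)) (n 190 (f 189) (f 190))))) (n 199 (n 195 (n 193 (n 192 (f 191) (f
  192)) (n 194 (f 193) (f 194))) (n 197 (n 196 (f 195) (f 196)) (n 198 (f 197) (f 198)))) (n 203
  (n 201 (n 200 (f 199) (f 200)) (n 202 (f 201) (f 202))) (n 205 (n 204 (f 203) (f 204)) (f
  205)))))) (n 225 (n 217 (n 213 (n 210 (n 208 (n 207 (f 206) (f 207)) (n 209 (f 208) (f 209)))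
  (n 212 (n 211 (f 210) (f 211)) (f 212))) (n 215 (n 214 (f 213) (f 214)) (n 216 (f 215) (f
  216)))) (n 221 (n 219 (n 218 (f 217) (f 218)) (n 220 (f 219) (f 220))) (n 223 (n 222 (f 221)
  (f 222)) (n 224 (f 223) (f 224))))) (n 234 (n 230 (n 228 (n 227 (n 226 (f 225) (f 226)) (f
  227)) (n 229 (f 228) (f 229))) (n 232 (n 231 (f 230) (f 231)) (n 233 (f 232) (f 233)))) (n 238
  (n 236 (n 235 (f 234) (f 235)) (n 237 (f 236) (f 237))) (n 241 (n 240 (n 239 (f 238) (f 239))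
  (f 240)) (n 242 (f 241) (f 242))))))) (n 255 (n 252 (n 249 (n 246 (n 245 (n 244 (f 243) (f
  244)) (f 245)) (n 248 (n 247 (f 246) (f 247)) (f 248))) (n 251 (n 250 (f 249) (f 250)) (f
  251))) (n 254 (n 253 (f 252) (f 253)) (f 254))) (f 255)))

def t2 : Tr :=
  n 129 (n 27 (n 2 (n 1 (f 0) (f 1)) (n 12 (n 5 (n 3 (f 2) (n 4 (f 3) (f 4))) (n 7 (n 6 (f 5) (f
  6)) (n 9 (n 8 (f 7) (f 8)) (n 10 (f 9) (n 11 (f 10) (f 11)))))) (n 20 (n 16 (n 14 (n 13 (f 12)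
  (f 13)) (n 15 (f 14) (f 15))) (n 18 (n 17 (f 16) (f 17)) (n 19 (f 18) (f 19)))) (n 23 (n 21 (f
  20) (n 22 (f 21) (f 22))) (n 25 (n 24 (f 23) (f 24)) (n 26 (f 25) (f 26))))))) (n 80 (n 46 (n
  36 (n 31 (n 29 (n 28 (f 27) (f 28)) (n 30 (f 29) (f 30))) (n 33 (n 32 (f 31) (f 32)) (n 34 (f
  33) (n 35 (f 34) (f 35))))) (n 41 (n 38 (n 37 (f 36) (f 37)) (n 39 (f 38) (n 40 (f 39) (f
  40)))) (n 43 (n 42 (f 41) (f 42)) (n 44 (f 43) (n 45 (f 44) (f 45)))))) (n 61 (n 53 (n 49 (n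
  47 (f 46) (n 48 (f 47) (f 48))) (n 51 (n 50 (f 49) (f 50)) (n 52 (f 51) (f 52)))) (n 57 (n 55
  (n 54 (f 53) (f 54)) (n 56 (f 55) (f 56))) (n 59 (n 58 (f 57) (f 58)) (n 60 (f 59) (f 60)))))
  (n 70 (n 65 (n 63 (n 62 (f 61) (f 62)) (n 64 (f 63) (f 64))) (n 67 (n 66 (f 65) (f 66)) (n 68
  (f 67) (n 69 (f 68) (f 69))))) (n 75 (n 72 (n 71 (f 70) (f 71)) (n 73 (f 72) (n 74 (f 73) (f
  74)))) (n 78 (n 77 (n 76 (f 75) (f 76)) (f 77)) (n 79 (f 78) (f 79))))))) (n 111 (n 99 (n 90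
  (n 85 (n 83 (n 81 (f 80) (n 82 (f 81) (f 82))) (n 84 (f 83) (f 84))) (n 88 (n 87 (n 86 (f 85)
  (f 86)) (f 87)) (n 89 (f 88) (f 89)))) (n 95 (n 93 (n 92 (n 91 (f 90) (f 91)) (f 92)) (n 94 (f
  93) (f 94))) (n 97 (n 96 (f 95) (f 96)) (n 98 (f 97) (f 98))))) (n 106 (n 103 (n 101 (n 100 (f
  99) (f 100)) (n 102 (f 101) (f 102))) (n 105 (n 104 (f 103) (f 104)) (f 105))) (n 109 (n 108
  (n 107 (f 106) (f 107)) (f 108)) (n 110 (f 109) (f 110))))) (n 120 (n 116 (n 114 (n 113 (n 112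
  (f 111) (f 112)) (f 113)) (n 115 (f 114) (f 115))) (n 118 (n 117 (f 116) (f 117)) (n 119 (f
  118) (f 119)))) (n 125 (n 123 (n 122 (n 121 (f 120) (f 121)) (f 122)) (n 124 (f 123) (f 124)))
  (n 127 (n 126 (f 125) (f 126)) (n 128 (f 127) (f 128)))))))) (n 231 (n 181 (n 148 (n 138 (n
  133 (n 131 (n 130 (f 129) (f 130)) (n 132 (f 131) (f 132))) (n 135 (n 134 (f 133) (f 134)) (n
  136 (f 135) (n 137 (f 136) (f 137))))) (n 143 (n 140 (n 139 (f 138) (f 139)) (n 141 (f 140) (n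
  142 (f 141) (f 142)))) (n 145 (n 144 (f 143) (f 144)) (n 146 (f 145) (n 147 (f 146) (f
  147)))))) (n 162 (n 154 (n 151 (n 149 (f 148) (n 150 (f 149) (f 150))) (n 152 (f 151) (n 153
  (f 152) (f 153)))) (n 157 (n 155 (f 154) (n 156 (f 155) (f 156))) (n 159 (n 158 (f 157) (f
  158)) (n 160 (f 159) (n 161 (f 160) (f 161)))))) (n 171 (n 166 (n 164 (n 163 (f 162) (f 163))
  (n 165 (f 164) (f 165))) (n 168 (n 167 (f 166) (f 167)) (n 169 (f 168) (n 170 (f 169) (f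
  170))))) (n 176 (n 173 (n 172 (f 171) (f 172)) (n 174 (f 173) (n 175 (f 174) (f 175)))) (n 179
  (n 178 (n 177 (f 176) (f 177)) (f 178)) (n 180 (f 179) (f 180))))))) (n 213 (n 200 (n 191 (n
  186 (n 184 (n 182 (f 181) (n 183 (f 182) (f 183))) (n 185 (f 184) (f 185))) (n 188 (n 187 (f
  186) (f 187)) (n 190 (n 189 (f 188) (f 189)) (f 190)))) (n 196 (n 194 (n 193 (n 192 (f 191) (f
  192)) (f 193)) (n 195 (f 194) (f 195))) (n 198 (n 197 (f 196) (f 197)) (n 199 (f 198) (f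
  199))))) (n 208 (n 204 (n 202 (n 201 (f 200) (f 201)) (n 203 (f 202) (f 203))) (n 206 (n 205
  (f 204) (f 205)) (n 207 (f 206) (f 207)))) (n 211 (n 210 (n 209 (f 208) (f 209)) (f 210)) (n
  212 (f 211) (f 212))))) (n 222 (n 218 (n 216 (n 215 (n 214 (f 213) (f 214)) (f 215)) (n 217 (f
  216) (f 217))) (n 220 (n 219 (f 218) (f 219)) (n 221 (f 220) (f 221)))) (n 227 (n 225 (n 224
  (n 223 (f 222) (f 223)) (f 224)) (n 226 (f 225) (f 226))) (n 229 (n 228 (f 227) (f 228)) (n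
  230 (f 229) (f 230))))))) (n 255 (n 248 (n 239 (n 235 (n 233 (n 232 (f 231) (f 232)) (n 234 (f
  233) (f 234))) (n 237 (n 236 (f 235) (f 236)) (n 238 (f 237) (f 238)))) (n 243 (n 241 (n 240
  (f 239) (f 240)) (n 242 (f 241) (f 242))) (n 246 (n 245 (n 244 (f 243) (f 244)) (f 245)) (n
  247 (f 246) (f 247))))) (n 253 (n 251 (n 250 (n 249 (f 248) (f 249)) (f 250)) (n 252 (f 251)
  (f 252))) (n 254 (f 253) (f 254)))) (f 255)))

def t3 : Tr :=
  n 142 (n 38 (n 5 (n 1 (f 0) (n 2 (f 1) (n 3 (f 2) (n 4 (f 3) (f 4))))) (n 21 (n 12 (n 7 (n 6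
  (f 5) (f 6)) (n 9 (n 8 (f 7) (f 8)) (n 10 (f 9) (n 11 (f 10) (f 11))))) (n 16 (n 14 (n 13 (f
  12) (f 13)) (n 15 (f 14) (f 15))) (n 18 (n 17 (f 16) (f 17)) (n 19 (f 18) (n 20 (f 19) (f
  20)))))) (n 29 (n 25 (n 23 (n 22 (f 21) (f 22)) (n 24 (f 23) (f 24))) (n 27 (n 26 (f 25) (f
  26)) (n 28 (f 27) (f 28)))) (n 33 (n 31 (n 30 (f 29) (f 30)) (n 32 (f 31) (f 32))) (n 35 (n 34
  (f 33) (f 34)) (n 36 (f 35) (n 37 (f 36) (f 37)))))))) (n 100 (n 63 (n 47 (n 42 (n 40 (n 39 (f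
  38) (f 39)) (n 41 (f 40) (f 41))) (n 44 (n 43 (f 42) (f 43)) (n 45 (f 44) (n 46 (f 45) (f
  46))))) (n 54 (n 50 (n 48 (f 47) (n 49 (f 48) (f 49))) (n 52 (n 51 (f 50) (f 51)) (n 53 (f 52)
  (f 53)))) (n 58 (n 56 (n 55 (f 54) (f 55)) (n 57 (f 56) (f 57))) (n 60 (n 59 (f 58) (f 59)) (n
  61 (f 60) (n 62 (f 61) (f 62))))))) (n 83 (n 73 (n 68 (n 65 (n 64 (f 63) (f 64)) (n 66 (f 65)
  (n 67 (f 66) (f 67)))) (n 70 (n 69 (f 68) (f 69)) (n 71 (f 70) (n 72 (f 71) (f 72))))) (n 78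
  (n 76 (n 75 (n 74 (f 73) (f 74)) (f 75)) (n 77 (f 76) (f 77))) (n 81 (n 80 (n 79 (f 78) (f
  79)) (f 80)) (n 82 (f 81) (f 82))))) (n 92 (n 88 (n 86 (n 85 (n 84 (f 83) (f 84)) (f 85)) (n
  87 (f 86) (f 87))) (n 90 (n 89 (f 88) (f 89)) (n 91 (f 90) (f 91)))) (n 96 (n 94 (n 93 (f 92)
  (f 93)) (n 95 (f 94) (f 95))) (n 98 (n 97 (f 96) (f 97)) (n 99 (f 98) (f 99))))))) (n 123 (n
  113 (n 108 (n 105 (n 103 (n 102 (n 101 (f 100) (f 101)) (f 102)) (n 104 (f 103) (f 104))) (n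
  107 (n 106 (f 105) (f 106)) (f 107))) (n 111 (n 110 (n 109 (f 108) (f 109)) (f 110)) (n 112 (f
  111) (f 112)))) (n 118 (n 116 (n 115 (n 114 (f 113) (f 114)) (f 115)) (n 117 (f 116) (f 117)))
  (n 121 (n 120 (n 119 (f 118) (f 119)) (f 120)) (n 122 (f 121) (f 122))))) (n 133 (n 128 (n 125
  (n 124 (f 123) (f 124)) (n 126 (f 125) (n 127 (f 126) (f 127)))) (n 130 (n 129 (f 128) (f
  129)) (n 131 (f 130) (n 132 (f 131) (f 132))))) (n 138 (n 135 (n 134 (f 133) (f 134)) (n 136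
  (f 135) (n 137 (f 136) (f 137)))) (n 140 (n 139 (f 138) (f 139)) (n 141 (f 140) (f 141))))))))
  (n 241 (n 202 (n 167 (n 151 (n 146 (n 144 (n 143 (f 142) (f 143)) (n 145 (f 144) (f 145))) (n
  148 (n 147 (f 146) (f 147)) (n 149 (f 148) (n 150 (f 149) (f 150))))) (n 158 (n 154 (n 152 (f
  151) (n 153 (f 152) (f 153))) (n 156 (n 155 (f 154) (f 155)) (n 157 (f 156) (f 157)))) (n 162
  (n 160 (n 159 (f 158) (f 159)) (n 161 (f 160) (f 161))) (n 164 (n 163 (f 162) (f 163)) (n 165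
  (f 164) (n 166 (f 165) (f 166))))))) (n 186 (n 176 (n 171 (n 169 (n 168 (f 167) (f 168)) (n
  170 (f 169) (f 170))) (n 173 (n 172 (f 171) (f 172)) (n 174 (f 173) (n 175 (f 174) (f 175)))))
  (n 181 (n 179 (n 178 (n 177 (f 176) (f 177)) (f 178)) (n 180 (f 179) (f 180))) (n 183 (n 182
  (f 181) (f 182)) (n 184 (f 183) (n 185 (f 184) (f 185)))))) (n 194 (n 190 (n 188 (n 187 (f
  186) (f 187)) (n 189 (f 188) (f 189))) (n 192 (n 191 (f 190) (f 191)) (n 193 (f 192) (f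
  193)))) (n 198 (n 196 (n 195 (f 194) (f 195)) (n 197 (f 196) (f 197))) (n 200 (n 199 (f 198)
  (f 199)) (n 201 (f 200) (f 201))))))) (n 224 (n 215 (n 210 (n 206 (n 204 (n 203 (f 202) (f
  203)) (n 205 (f 204) (f 205))) (n 208 (n 207 (f 206) (f 207)) (n 209 (f 208) (f 209)))) (n 213
  (n 212 (n 211 (f 210) (f 211)) (f 212)) (n 214 (f 213) (f 214)))) (n 220 (n 218 (n 217 (n 216
  (f 215) (f 216)) (f 217)) (n 219 (f 218) (f 219))) (n 222 (n 221 (f 220) (f 221)) (n 223 (f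
  222) (f 223))))) (n 233 (n 229 (n 227 (n 226 (n 225 (f 224) (f 225)) (f 226)) (n 228 (f 227)
  (f 228))) (n 231 (n 230 (f 229) (f 230)) (n 232 (f 231) (f 232)))) (n 237 (n 235 (n 234 (f
  233) (f 234)) (n 236 (f 235) (f 236))) (n 239 (n 238 (f 237) (f 238)) (n 240 (f 239) (f
  240))))))) (n 255 (n 252 (n 249 (n 245 (n 243 (n 242 (f 241) (f 242)) (n 244 (f 243) (f 244)))
  (n 248 (n 247 (n 246 (f 245) (f 246)) (f 247)) (f 248))) (n 251 (n 250 (f 249) (f 250)) (f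
  251))) (n 254 (n 253 (f 252) (f 253)) (f 254))) (f 255)))

def t4 : Tr :=
  n 139 (n 34 (n 6 (n 2 (n 1 (f 0) (f 1)) (n 4 (n 3 (f 2) (f 3)) (n 5 (f 4) (f 5)))) (n 16 (n 10
  (n 8 (n 7 (f 6) (f 7)) (n 9 (f 8) (f 9))) (n 12 (n 11 (f 10) (f 11)) (n 14 (n 13 (f 12) (f
  13)) (n 15 (f 14) (f 15))))) (n 25 (n 20 (n 18 (n 17 (f 16) (f 17)) (n 19 (f 18) (f 19))) (n
  22 (n 21 (f 20) (f 21)) (n 23 (f 22) (n 24 (f 23) (f 24))))) (n 29 (n 27 (n 26 (f 25) (f 26))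
  (n 28 (f 27) (f 28))) (n 32 (n 30 (f 29) (n 31 (f 30) (f 31))) (n 33 (f 32) (f 33))))))) (n 96
  (n 58 (n 44 (n 39 (n 36 (n 35 (f 34) (f 35)) (n 37 (f 36) (n 38 (f 37) (f 38)))) (n 41 (n 40
  (f 39) (f 40)) (n 42 (f 41) (n 43 (f 42) (f 43))))) (n 50 (n 47 (n 45 (f 44) (n 46 (f 45) (f
  46))) (n 48 (f 47) (n 49 (f 48) (f 49)))) (n 54 (n 52 (n 51 (f 50) (f 51)) (n 53 (f 52) (f
  53))) (n 56 (n 55 (f 54) (f 55)) (n 57 (f 56) (f 57)))))) (n 77 (n 66 (n 62 (n 60 (n 59 (f 58)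
  (f 59)) (n 61 (f 60) (f 61))) (n 64 (n 63 (f 62) (f 63)) (n 65 (f 64) (f 65)))) (n 71 (n 68 (n
  67 (f 66) (f 67)) (n 69 (f 68) (n 70 (f 69) (f 70)))) (n 74 (n 72 (f 71) (n 73 (f 72) (f 73)))
  (n 75 (f 74) (n 76 (f 75) (f 76)))))) (n 87 (n 83 (n 80 (n 79 (n 78 (f 77) (f 78)) (f 79)) (n
  82 (n 81 (f 80) (f 81)) (f 82))) (n 85 (n 84 (f 83) (f 84)) (n 86 (f 85) (f 86)))) (n 91 (n 89
  (n 88 (f 87) (f 88)) (n 90 (f 89) (f 90))) (n 93 (n 92 (f 91) (f 92)) (n 94 (f 93) (n 95 (f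
  94) (f 95)))))))) (n 121 (n 111 (n 104 (n 100 (n 98 (n 97 (f 96) (f 97)) (n 99 (f 98) (f 99)))
  (n 102 (n 101 (f 100) (f 101)) (n 103 (f 102) (f 103)))) (n 108 (n 106 (n 105 (f 104) (f 105))
  (n 107 (f 106) (f 107))) (n 110 (n 109 (f 108) (f 109)) (f 110)))) (n 116 (n 114 (n 113 (n 112
  (f 111) (f 112)) (f 113)) (n 115 (f 114) (f 115))) (n 119 (n 118 (n 117 (f 116) (f 117)) (f
  118)) (n 120 (f 119) (f 120))))) (n 130 (n 126 (n 124 (n 122 (f 121) (n 123 (f 122) (f 123)))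
  (n 125 (f 124) (f 125))) (n 128 (n 127 (f 126) (f 127)) (n 129 (f 128) (f 129)))) (n 134 (n
  132 (n 131 (f 130) (f 131)) (n 133 (f 132) (f 133))) (n 136 (n 135 (f 134) (f 135)) (n 137 (f
  136) (n 138 (f 137) (f 138))))))))) (n 237 (n 198 (n 164 (n 149 (n 143 (n 141 (n 140 (f 139)
  (f 140)) (n 142 (f 141) (f 142))) (n 146 (n 144 (f 143) (n 145 (f 144) (f 145))) (n 147 (f
  146) (n 148 (f 147) (f 148))))) (n 156 (n 152 (n 150 (f 149) (n 151 (f 150) (f 151))) (n 154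
  (n 153 (f 152) (f 153)) (n 155 (f 154) (f 155)))) (n 160 (n 158 (n 157 (f 156) (f 157)) (n 159
  (f 158) (f 159))) (n 162 (n 161 (f 160) (f 161)) (n 163 (f 162) (f 163)))))) (n 181 (n 172 (n
  168 (n 166 (n 165 (f 164) (f 165)) (n 167 (f 166) (f 167))) (n 170 (n 169 (f 168) (f 169)) (n
  171 (f 170) (f 171)))) (n 176 (n 174 (n 173 (f 172) (f 173)) (n 175 (f 174) (f 175))) (n 178
  (n 177 (f 176) (f 177)) (n 179 (f 178) (n 180 (f 179) (f 180)))))) (n 190 (n 186 (n 184 (n 183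
  (n 182 (f 181) (f 182)) (f 183)) (n 185 (f 184) (f 185))) (n 188 (n 187 (f 186) (f 187)) (n
  189 (f 188) (f 189)))) (n 194 (n 192 (n 191 (f 190) (f 191)) (n 193 (f 192) (f 193))) (n 196
  (n 195 (f 194) (f 195)) (n 197 (f 196) (f 197))))))) (n 220 (n 212 (n 206 (n 202 (n 200 (n 199
  (f 198) (f 199)) (n 201 (f 200) (f 201))) (n 204 (n 203 (f 202) (f 203)) (n 205 (f 204) (f
  205)))) (n 209 (n 208 (n 207 (f 206) (f 207)) (f 208)) (n 211 (n 210 (f 209) (f 210)) (f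
  211)))) (n 216 (n 214 (n 213 (f 212) (f 213)) (n 215 (f 214) (f 215))) (n 218 (n 217 (f 216)
  (f 217)) (n 219 (f 218) (f 219))))) (n 229 (n 224 (n 222 (n 221 (f 220) (f 221)) (n 223 (f
  222) (f 223))) (n 227 (n 226 (n 225 (f 224) (f 225)) (f 226)) (n 228 (f 227) (f 228)))) (n 233
  (n 231 (n 230 (f 229) (f 230)) (n 232 (f 231) (f 232))) (n 235 (n 234 (f 233) (f 234)) (n 236
  (f 235) (f 236))))))) (n 252 (n 247 (n 243 (n 240 (n 239 (n 238 (f 237) (f 238)) (f 239)) (n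
  242 (n 241 (f 240) (f 241)) (f 242))) (n 245 (n 244 (f 243) (f 244)) (n 246 (f 245) (f 246))))
  (n 250 (n 249 (n 248 (f 247) (f 248)) (f 249)) (n 251 (f 250) (f 251)))) (n 255 (n 254 (n 253
  (f 252) (f 253)) (f 254)) (f 255))))

def t5 : Tr :=
  n 121 (n 21 (n 1 (f 0) (n 7 (n 3 (n 2 (f 1) (f 2)) (n 5 (n 4 (f 3) (f 4)) (n 6 (f 5) (f 6))))
  (n 14 (n 10 (n 8 (f 7) (n 9 (f 8) (f 9))) (n 12 (n 11 (f 10) (f 11)) (n 13 (f 12) (f 13)))) (n
  17 (n 15 (f 14) (n 16 (f 15) (f 16))) (n 19 (n 18 (f 17) (f 18)) (n 20 (f 19) (f 20))))))) (n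
  65 (n 39 (n 30 (n 25 (n 23 (n 22 (f 21) (f 22)) (n 24 (f 23) (f 24))) (n 27 (n 26 (f 25) (f
  26)) (n 28 (f 27) (n 29 (f 28) (f 29))))) (n 34 (n 32 (n 31 (f 30) (f 31)) (n 33 (f 32) (f
  33))) (n 36 (n 35 (f 34) (f 35)) (n 37 (f 36) (n 38 (f 37) (f 38)))))) (n 49 (n 43 (n 41 (n 40
  (f 39) (f 40)) (n 42 (f 41) (f 42))) (n 45 (n 44 (f 43) (f 44)) (n 47 (n 46 (f 45) (f 46)) (n
  48 (f 47) (f 48))))) (n 56 (n 52 (n 50 (f 49) (n 51 (f 50) (f 51))) (n 54 (n 53 (f 52) (f 53))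
  (n 55 (f 54) (f 55)))) (n 60 (n 58 (n 57 (f 56) (f 57)) (n 59 (f 58) (f 59))) (n 62 (n 61 (f
  60) (f 61)) (n 63 (f 62) (n 64 (f 63) (f 64)))))))) (n 100 (n 84 (n 74 (n 69 (n 67 (n 66 (f
  65) (f 66)) (n 68 (f 67) (f 68))) (n 71 (n 70 (f 69) (f 70)) (n 72 (f 71) (n 73 (f 72) (f
  73))))) (n 79 (n 77 (n 76 (n 75 (f 74) (f 75)) (f 76)) (n 78 (f 77) (f 78))) (n 82 (n 81 (n 80
  (f 79) (f 80)) (f 81)) (n 83 (f 82) (f 83))))) (n 93 (n 89 (n 87 (n 86 (n 85 (f 84) (f 85)) (f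
  86)) (n 88 (f 87) (f 88))) (n 91 (n 90 (f 89) (f 90)) (n 92 (f 91) (f 92)))) (n 97 (n 95 (n 94
  (f 93) (f 94)) (n 96 (f 95) (f 96))) (n 99 (n 98 (f 97) (f 98)) (f 99))))) (n 112 (n 107 (n
  104 (n 102 (n 101 (f 100) (f 101)) (n 103 (f 102) (f 103))) (n 106 (n 105 (f 104) (f 105)) (f
  106))) (n 110 (n 109 (n 108 (f 107) (f 108)) (f 109)) (n 111 (f 110) (f 111)))) (n 117 (n 115
  (n 114 (n 113 (f 112) (f 113)) (f 114)) (n 116 (f 115) (f 116))) (n 119 (n 118 (f 117) (f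
  118)) (n 120 (f 119) (f 120)))))))) (n 225 (n 167 (n 140 (n 131 (n 126 (n 124 (n 123 (n 122 (f
  121) (f 122)) (f 123)) (n 125 (f 124) (f 125))) (n 129 (n 128 (n 127 (f 126) (f 127)) (f 128))
  (n 130 (f 129) (f 130)))) (n 135 (n 133 (n 132 (f 131) (f 132)) (n 134 (f 133) (f 134))) (n
  137 (n 136 (f 135) (f 136)) (n 138 (f 137) (n 139 (f 138) (f 139)))))) (n 150 (n 145 (n 142 (n
  141 (f 140) (f 141)) (n 143 (f 142) (n 144 (f 143) (f 144)))) (n 147 (n 146 (f 145) (f 146))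
  (n 148 (f 147) (n 149 (f 148) (f 149))))) (n 157 (n 153 (n 151 (f 150) (n 152 (f 151) (f
  152))) (n 155 (n 154 (f 153) (f 154)) (n 156 (f 155) (f 156)))) (n 161 (n 159 (n 158 (f 157)
  (f 158)) (n 160 (f 159) (f 160))) (n 164 (n 162 (f 161) (n 163 (f 162) (f 163))) (n 165 (f
  164) (n 166 (f 165) (f 166)))))))) (n 204 (n 187 (n 177 (n 172 (n 169 (n 168 (f 167) (f 168))
  (n 170 (f 169) (n 171 (f 170) (f 171)))) (n 175 (n 174 (n 173 (f 172) (f 173)) (f 174)) (n 176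
  (f 175) (f 176)))) (n 182 (n 179 (n 178 (f 177) (f 178)) (n 181 (n 180 (f 179) (f 180)) (f
  181))) (n 185 (n 184 (n 183 (f 182) (f 183)) (f 184)) (n 186 (f 185) (f 186))))) (n 196 (n 192
  (n 190 (n 189 (n 188 (f 187) (f 188)) (f 189)) (n 191 (f 190) (f 191))) (n 194 (n 193 (f 192)
  (f 193)) (n 195 (f 194) (f 195)))) (n 200 (n 198 (n 197 (f 196) (f 197)) (n 199 (f 198) (f
  199))) (n 202 (n 201 (f 200) (f 201)) (n 203 (f 202) (f 203)))))) (n 216 (n 211 (n 208 (n 206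
  (n 205 (f 204) (f 205)) (n 207 (f 206) (f 207))) (n 210 (n 209 (f 208) (f 209)) (f 210))) (n
  214 (n 213 (n 212 (f 211) (f 212)) (f 213)) (n 215 (f 214) (f 215)))) (n 221 (n 219 (n 218 (n
  217 (f 216) (f 217)) (f 218)) (n 220 (f 219) (f 220))) (n 223 (n 222 (f 221) (f 222)) (n 224
  (f 223) (f 224))))))) (n 253 (n 241 (n 233 (n 229 (n 227 (n 226 (f 225) (f 226)) (n 228 (f
  227) (f 228))) (n 231 (n 230 (f 229) (f 230)) (n 232 (f 231) (f 232)))) (n 237 (n 235 (n 234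
  (f 233) (f 234)) (n 236 (f 235) (f 236))) (n 239 (n 238 (f 237) (f 238)) (n 240 (f 239) (f
  240))))) (n 249 (n 245 (n 243 (n 242 (f 241) (f 242)) (n 244 (f 243) (f 244))) (n 248 (n 247
  (n 246 (f 245) (f 246)) (f 247)) (f 248))) (n 251 (n 250 (f 249) (f 250)) (n 252 (f 251) (f
  252))))) (n 255 (n 254 (f 253) (f 254)) (f 255))))

def t6 : Tr :=
  n 110 (n 13 (n 1 (f 0) (n 4 (n 2 (f 1) (n 3 (f 2) (f 3))) (n 7 (n 5 (f 4) (n 6 (f 5) (f 6)))
  (n 10 (n 8 (f 7) (n 9 (f 8) (f 9))) (n 11 (f 10) (n 12 (f 11) (f 12))))))) (n 50 (n 30 (n 21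
  (n 17 (n 15 (n 14 (f 13) (f 14)) (n 16 (f 15) (f 16))) (n 19 (n 18 (f 17) (f 18)) (n 20 (f 19)
  (f 20)))) (n 25 (n 23 (n 22 (f 21) (f 22)) (n 24 (f 23) (f 24))) (n 27 (n 26 (f 25) (f 26)) (n
  28 (f 27) (n 29 (f 28) (f 29)))))) (n 39 (n 34 (n 32 (n 31 (f 30) (f 31)) (n 33 (f 32) (f
  33))) (n 36 (n 35 (f 34) (f 35)) (n 37 (f 36) (n 38 (f 37) (f 38))))) (n 43 (n 41 (n 40 (f 39)
  (f 40)) (n 42 (f 41) (f 42))) (n 46 (n 44 (f 43) (n 45 (f 44) (f 45))) (n 48 (n 47 (f 46) (f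
  47)) (n 49 (f 48) (f 49))))))) (n 82 (n 65 (n 57 (n 53 (n 51 (f 50) (n 52 (f 51) (f 52))) (n
  55 (n 54 (f 53) (f 54)) (n 56 (f 55) (f 56)))) (n 61 (n 59 (n 58 (f 57) (f 58)) (n 60 (f 59)
  (f 60))) (n 63 (n 62 (f 61) (f 62)) (n 64 (f 63) (f 64))))) (n 73 (n 69 (n 67 (n 66 (f 65) (f
  66)) (n 68 (f 67) (f 68))) (n 71 (n 70 (f 69) (f 70)) (n 72 (f 71) (f 72)))) (n 78 (n 75 (n 74
  (f 73) (f 74)) (n 76 (f 75) (n 77 (f 76) (f 77)))) (n 80 (n 79 (f 78) (f 79)) (n 81 (f 80) (f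
  81)))))) (n 99 (n 91 (n 87 (n 85 (n 84 (n 83 (f 82) (f 83)) (f 84)) (n 86 (f 85) (f 86))) (n
  89 (n 88 (f 87) (f 88)) (n 90 (f 89) (f 90)))) (n 95 (n 93 (n 92 (f 91) (f 92)) (n 94 (f 93)
  (f 94))) (n 97 (n 96 (f 95) (f 96)) (n 98 (f 97) (f 98))))) (n 105 (n 102 (n 101 (n 100 (f 99)
  (f 100)) (f 101)) (n 104 (n 103 (f 102) (f 103)) (f 104))) (n 108 (n 107 (n 106 (f 105) (f
  106)) (f 107)) (n 109 (f 108) (f 109)))))))) (n 214 (n 151 (n 130 (n 120 (n 115 (n 113 (n 112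
  (n 111 (f 110) (f 111)) (f 112)) (n 114 (f 113) (f 114))) (n 118 (n 117 (n 116 (f 115) (f
  116)) (f 117)) (n 119 (f 118) (f 119)))) (n 125 (n 123 (n 122 (n 121 (f 120) (f 121)) (f 122))
  (n 124 (f 123) (f 124))) (n 127 (n 126 (f 125) (f 126)) (n 129 (n 128 (f 127) (f 128)) (f
  129))))) (n 140 (n 135 (n 132 (n 131 (f 130) (f 131)) (n 133 (f 132) (n 134 (f 133) (f 134))))
  (n 137 (n 136 (f 135) (f 136)) (n 138 (f 137) (n 139 (f 138) (f 139))))) (n 145 (n 142 (n 141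
  (f 140) (f 141)) (n 143 (f 142) (n 144 (f 143) (f 144)))) (n 148 (n 146 (f 145) (n 147 (f 146)
  (f 147))) (n 149 (f 148) (n 150 (f 149) (f 150))))))) (n 184 (n 165 (n 157 (n 154 (n 152 (f
  151) (n 153 (f 152) (f 153))) (n 155 (f 154) (n 156 (f 155) (f 156)))) (n 161 (n 159 (n 158 (f
  157) (f 158)) (n 160 (f 159) (f 160))) (n 163 (n 162 (f 161) (f 162)) (n 164 (f 163) (f
  164))))) (n 174 (n 169 (n 167 (n 166 (f 165) (f 166)) (n 168 (f 167) (f 168))) (n 171 (n 170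
  (f 169) (f 170)) (n 172 (f 171) (n 173 (f 172) (f 173))))) (n 179 (n 176 (n 175 (f 174) (f
  175)) (n 177 (f 176) (n 178 (f 177) (f 178)))) (n 181 (n 180 (f 179) (f 180)) (n 183 (n 182 (f
  181) (f 182)) (f 183)))))) (n 201 (n 193 (n 189 (n 186 (n 185 (f 184) (f 185)) (n 188 (n 187
  (f 186) (f 187)) (f 188))) (n 191 (n 190 (f 189) (f 190)) (n 192 (f 191) (f 192)))) (n 197 (n
  195 (n 194 (f 193) (f 194)) (n 196 (f 195) (f 196))) (n 199 (n 198 (f 197) (f 198)) (n 200 (f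
  199) (f 200))))) (n 209 (n 205 (n 203 (n 202 (f 201) (f 202)) (n 204 (f 203) (f 204))) (n 207
  (n 206 (f 205) (f 206)) (n 208 (f 207) (f 208)))) (n 212 (n 211 (n 210 (f 209) (f 210)) (f
  211)) (n 213 (f 212) (f 213))))))) (n 250 (n 232 (n 223 (n 219 (n 217 (n 216 (n 215 (f 214) (f
  215)) (f 216)) (n 218 (f 217) (f 218))) (n 221 (n 220 (f 219) (f 220)) (n 222 (f 221) (f
  222)))) (n 228 (n 226 (n 225 (n 224 (f 223) (f 224)) (f 225)) (n 227 (f 226) (f 227))) (n 230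
  (n 229 (f 228) (f 229)) (n 231 (f 230) (f 231))))) (n 241 (n 237 (n 235 (n 234 (n 233 (f 232)
  (f 233)) (f 234)) (n 236 (f 235) (f 236))) (n 239 (n 238 (f 237) (f 238)) (n 240 (f 239) (f
  240)))) (n 246 (n 243 (n 242 (f 241) (f 242)) (n 245 (n 244 (f 243) (f 244)) (f 245))) (n 249
  (n 248 (n 247 (f 246) (f 247)) (f 248)) (f 249))))) (n 255 (n 254 (n 252 (n 251 (f 250) (f
  251)) (n 253 (f 252) (f 253))) (f 254)) (f 255))))

def t7 : Tr :=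
  n 126 (n 24 (n 1 (f 0) (n 8 (n 3 (n 2 (f 1) (f 2)) (n 5 (n 4 (f 3) (f 4)) (n 6 (f 5) (n 7 (f
  6) (f 7))))) (n 16 (n 12 (n 10 (n 9 (f 8) (f 9)) (n 11 (f 10) (f 11))) (n 14 (n 13 (f 12) (f
  13)) (n 15 (f 14) (f 15)))) (n 20 (n 18 (n 17 (f 16) (f 17)) (n 19 (f 18) (f 19))) (n 22 (n 21
  (f 20) (f 21)) (n 23 (f 22) (f 23))))))) (n 73 (n 42 (n 33 (n 28 (n 26 (n 25 (f 24) (f 25)) (n
  27 (f 26) (f 27))) (n 30 (n 29 (f 28) (f 29)) (n 31 (f 30) (n 32 (f 31) (f 32))))) (n 37 (n 35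
  (n 34 (f 33) (f 34)) (n 36 (f 35) (f 36))) (n 39 (n 38 (f 37) (f 38)) (n 40 (f 39) (n 41 (f
  40) (f 41)))))) (n 54 (n 47 (n 44 (n 43 (f 42) (f 43)) (n 45 (f 44) (n 46 (f 45) (f 46)))) (n
  50 (n 48 (f 47) (n 49 (f 48) (f 49))) (n 52 (n 51 (f 50) (f 51)) (n 53 (f 52) (f 53))))) (n 63
  (n 58 (n 56 (n 55 (f 54) (f 55)) (n 57 (f 56) (f 57))) (n 60 (n 59 (f 58) (f 59)) (n 61 (f 60)
  (n 62 (f 61) (f 62))))) (n 68 (n 65 (n 64 (f 63) (f 64)) (n 66 (f 65) (n 67 (f 66) (f 67))))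
  (n 70 (n 69 (f 68) (f 69)) (n 71 (f 70) (n 72 (f 71) (f 72)))))))) (n 107 (n 93 (n 83 (n 78 (n
  76 (n 74 (f 73) (n 75 (f 74) (f 75))) (n 77 (f 76) (f 77))) (n 81 (n 80 (n 79 (f 78) (f 79))
  (f 80)) (n 82 (f 81) (f 82)))) (n 88 (n 86 (n 85 (n 84 (f 83) (f 84)) (f 85)) (n 87 (f 86) (f
  87))) (n 91 (n 90 (n 89 (f 88) (f 89)) (f 90)) (n 92 (f 91) (f 92))))) (n 101 (n 97 (n 95 (n
  94 (f 93) (f 94)) (n 96 (f 95) (f 96))) (n 99 (n 98 (f 97) (f 98)) (n 100 (f 99) (f 100)))) (n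
  104 (n 103 (n 102 (f 101) (f 102)) (f 103)) (n 106 (n 105 (f 104) (f 105)) (f 106))))) (n 117
  (n 112 (n 110 (n 109 (n 108 (f 107) (f 108)) (f 109)) (n 111 (f 110) (f 111))) (n 115 (n 114
  (n 113 (f 112) (f 113)) (f 114)) (n 116 (f 115) (f 116)))) (n 122 (n 120 (n 119 (n 118 (f 117)
  (f 118)) (f 119)) (n 121 (f 120) (f 121))) (n 124 (n 123 (f 122) (f 123)) (n 125 (f 124) (f
  125)))))))) (n 230 (n 176 (n 145 (n 136 (n 131 (n 128 (n 127 (f 126) (f 127)) (n 130 (n 129 (f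
  128) (f 129)) (f 130))) (n 134 (n 133 (n 132 (f 131) (f 132)) (f 133)) (n 135 (f 134) (f
  135)))) (n 140 (n 138 (n 137 (f 136) (f 137)) (n 139 (f 138) (f 139))) (n 142 (n 141 (f 140)
  (f 141)) (n 143 (f 142) (n 144 (f 143) (f 144)))))) (n 157 (n 150 (n 147 (n 146 (f 145) (f
  146)) (n 148 (f 147) (n 149 (f 148) (f 149)))) (n 153 (n 151 (f 150) (n 152 (f 151) (f 152)))
  (n 155 (n 154 (f 153) (f 154)) (n 156 (f 155) (f 156))))) (n 166 (n 161 (n 159 (n 158 (f 157)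
  (f 158)) (n 160 (f 159) (f 160))) (n 163 (n 162 (f 161) (f 162)) (n 164 (f 163) (n 165 (f 164)
  (f 165))))) (n 171 (n 168 (n 167 (f 166) (f 167)) (n 169 (f 168) (n 170 (f 169) (f 170)))) (n
  173 (n 172 (f 171) (f 172)) (n 175 (n 174 (f 173) (f 174)) (f 175))))))) (n 211 (n 196 (n 186
  (n 181 (n 178 (n 177 (f 176) (f 177)) (n 180 (n 179 (f 178) (f 179)) (f 180))) (n 184 (n 182
  (f 181) (n 183 (f 182) (f 183))) (n 185 (f 184) (f 185)))) (n 191 (n 189 (n 188 (n 187 (f 186)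
  (f 187)) (f 188)) (n 190 (f 189) (f 190))) (n 194 (n 193 (n 192 (f 191) (f 192)) (f 193)) (n
  195 (f 194) (f 195))))) (n 204 (n 200 (n 198 (n 197 (f 196) (f 197)) (n 199 (f 198) (f 199)))
  (n 202 (n 201 (f 200) (f 201)) (n 203 (f 202) (f 203)))) (n 208 (n 206 (n 205 (f 204) (f 205))
  (n 207 (f 206) (f 207))) (n 210 (n 209 (f 208) (f 209)) (f 210))))) (n 221 (n 216 (n 214 (n
  213 (n 212 (f 211) (f 212)) (f 213)) (n 215 (f 214) (f 215))) (n 219 (n 218 (n 217 (f 216) (f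
  217)) (f 218)) (n 220 (f 219) (f 220)))) (n 226 (n 224 (n 223 (n 222 (f 221) (f 222)) (f 223))
  (n 225 (f 224) (f 225))) (n 228 (n 227 (f 226) (f 227)) (n 229 (f 228) (f 229))))))) (n 254 (n
  245 (n 237 (n 234 (n 232 (n 231 (f 230) (f 231)) (n 233 (f 232) (f 233))) (n 236 (n 235 (f
  234) (f 235)) (f 236))) (n 241 (n 239 (n 238 (f 237) (f 238)) (n 240 (f 239) (f 240))) (n 243
  (n 242 (f 241) (f 242)) (n 244 (f 243) (f 244))))) (n 251 (n 249 (n 248 (n 247 (n 246 (f 245)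
  (f 246)) (f 247)) (f 248)) (n 250 (f 249) (f 250))) (n 253 (n 252 (f 251) (f 252)) (f 253))))
  (n 255 (f 254) (f 255))))

def t8 : Tr :=
  n 136 (n 31 (n 3 (n 1 (f 0) (n 2 (f 1) (f 2))) (n 15 (n 7 (n 5 (n 4 (f 3) (f 4)) (n 6 (f 5) (f
  6))) (n 11 (n 8 (f 7) (n 9 (f 8) (n 10 (f 9) (f 10)))) (n 13 (n 12 (f 11) (f 12)) (n 14 (f 13)
  (f 14))))) (n 23 (n 19 (n 17 (n 16 (f 15) (f 16)) (n 18 (f 17) (f 18))) (n 21 (n 20 (f 19) (f
  20)) (n 22 (f 21) (f 22)))) (n 27 (n 25 (n 24 (f 23) (f 24)) (n 26 (f 25) (f 26))) (n 29 (n 28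
  (f 27) (f 28)) (n 30 (f 29) (f 30))))))) (n 89 (n 52 (n 40 (n 35 (n 33 (n 32 (f 31) (f 32)) (n
  34 (f 33) (f 34))) (n 37 (n 36 (f 35) (f 36)) (n 38 (f 37) (n 39 (f 38) (f 39))))) (n 45 (n 42
  (n 41 (f 40) (f 41)) (n 43 (f 42) (n 44 (f 43) (f 44)))) (n 48 (n 46 (f 45) (n 47 (f 46) (f
  47))) (n 50 (n 49 (f 48) (f 49)) (n 51 (f 50) (f 51)))))) (n 69 (n 60 (n 55 (n 53 (f 52) (n 54
  (f 53) (f 54))) (n 57 (n 56 (f 55) (f 56)) (n 58 (f 57) (n 59 (f 58) (f 59))))) (n 64 (n 62 (n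
  61 (f 60) (f 61)) (n 63 (f 62) (f 63))) (n 66 (n 65 (f 64) (f 65)) (n 67 (f 66) (n 68 (f 67)
  (f 68)))))) (n 79 (n 74 (n 72 (n 71 (n 70 (f 69) (f 70)) (f 71)) (n 73 (f 72) (f 73))) (n 77
  (n 76 (n 75 (f 74) (f 75)) (f 76)) (n 78 (f 77) (f 78)))) (n 84 (n 82 (n 81 (n 80 (f 79) (f
  80)) (f 81)) (n 83 (f 82) (f 83))) (n 87 (n 86 (n 85 (f 84) (f 85)) (f 86)) (n 88 (f 87) (f
  88))))))) (n 116 (n 106 (n 99 (n 95 (n 92 (n 91 (n 90 (f 89) (f 90)) (f 91)) (n 94 (n 93 (f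
  92) (f 93)) (f 94))) (n 97 (n 96 (f 95) (f 96)) (n 98 (f 97) (f 98)))) (n 103 (n 101 (n 100 (f
  99) (f 100)) (n 102 (f 101) (f 102))) (n 105 (n 104 (f 103) (f 104)) (f 105)))) (n 111 (n 109
  (n 108 (n 107 (f 106) (f 107)) (f 108)) (n 110 (f 109) (f 110))) (n 114 (n 113 (n 112 (f 111)
  (f 112)) (f 113)) (n 115 (f 114) (f 115))))) (n 126 (n 121 (n 119 (n 118 (n 117 (f 116) (f
  117)) (f 118)) (n 120 (f 119) (f 120))) (n 124 (n 123 (n 122 (f 121) (f 122)) (f 123)) (n 125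
  (f 124) (f 125)))) (n 131 (n 128 (n 127 (f 126) (f 127)) (n 130 (n 129 (f 128) (f 129)) (f
  130))) (n 133 (n 132 (f 131) (f 132)) (n 134 (f 133) (n 135 (f 134) (f 135))))))))) (n 236 (n
  193 (n 157 (n 145 (n 140 (n 138 (n 137 (f 136) (f 137)) (n 139 (f 138) (f 139))) (n 142 (n 141
  (f 140) (f 141)) (n 143 (f 142) (n 144 (f 143) (f 144))))) (n 150 (n 147 (n 146 (f 145) (f
  146)) (n 148 (f 147) (n 149 (f 148) (f 149)))) (n 153 (n 151 (f 150) (n 152 (f 151) (f 152)))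
  (n 155 (n 154 (f 153) (f 154)) (n 156 (f 155) (f 156)))))) (n 174 (n 165 (n 160 (n 158 (f 157)
  (n 159 (f 158) (f 159))) (n 162 (n 161 (f 160) (f 161)) (n 163 (f 162) (n 164 (f 163) (f
  164))))) (n 169 (n 167 (n 166 (f 165) (f 166)) (n 168 (f 167) (f 168))) (n 172 (n 170 (f 169)
  (n 171 (f 170) (f 171))) (n 173 (f 172) (f 173))))) (n 184 (n 179 (n 176 (n 175 (f 174) (f
  175)) (n 178 (n 177 (f 176) (f 177)) (f 178))) (n 182 (n 181 (n 180 (f 179) (f 180)) (f 181))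
  (n 183 (f 182) (f 183)))) (n 189 (n 187 (n 185 (f 184) (n 186 (f 185) (f 186))) (n 188 (f 187)
  (f 188))) (n 191 (n 190 (f 189) (f 190)) (n 192 (f 191) (f 192))))))) (n 219 (n 210 (n 203 (n
  198 (n 196 (n 195 (n 194 (f 193) (f 194)) (f 195)) (n 197 (f 196) (f 197))) (n 201 (n 200 (n
  199 (f 198) (f 199)) (f 200)) (n 202 (f 201) (f 202)))) (n 207 (n 205 (n 204 (f 203) (f 204))
  (n 206 (f 205) (f 206))) (n 209 (n 208 (f 207) (f 208)) (f 209)))) (n 215 (n 213 (n 212 (n 211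
  (f 210) (f 211)) (f 212)) (n 214 (f 213) (f 214))) (n 217 (n 216 (f 215) (f 216)) (n 218 (f
  217) (f 218))))) (n 228 (n 224 (n 222 (n 221 (n 220 (f 219) (f 220)) (f 221)) (n 223 (f 222)
  (f 223))) (n 226 (n 225 (f 224) (f 225)) (n 227 (f 226) (f 227)))) (n 232 (n 230 (n 229 (f
  228) (f 229)) (n 231 (f 230) (f 231))) (n 234 (n 233 (f 232) (f 233)) (n 235 (f 234) (f
  235))))))) (n 255 (n 250 (n 244 (n 240 (n 238 (n 237 (f 236) (f 237)) (n 239 (f 238) (f 239)))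
  (n 242 (n 241 (f 240) (f 241)) (n 243 (f 242) (f 243)))) (n 248 (n 246 (n 245 (f 244) (f 245))
  (n 247 (f 246) (f 247))) (n 249 (f 248) (f 249)))) (n 254 (n 252 (n 251 (f 250) (f 251)) (n
  253 (f 252) (f 253))) (f 254))) (f 255)))

def t9 : Tr :=
  n 117 (n 18 (n 1 (f 0) (n 5 (n 2 (f 1) (n 3 (f 2) (n 4 (f 3) (f 4)))) (n 10 (n 6 (f 5) (n 7 (f
  6) (n 8 (f 7) (n 9 (f 8) (f 9))))) (n 14 (n 12 (n 11 (f 10) (f 11)) (n 13 (f 12) (f 13))) (n
  16 (n 15 (f 14) (f 15)) (n 17 (f 16) (f 17))))))) (n 59 (n 36 (n 27 (n 22 (n 20 (n 19 (f 18)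
  (f 19)) (n 21 (f 20) (f 21))) (n 24 (n 23 (f 22) (f 23)) (n 25 (f 24) (n 26 (f 25) (f 26)))))
  (n 31 (n 29 (n 28 (f 27) (f 28)) (n 30 (f 29) (f 30))) (n 33 (n 32 (f 31) (f 32)) (n 34 (f 33)
  (n 35 (f 34) (f 35)))))) (n 45 (n 40 (n 38 (n 37 (f 36) (f 37)) (n 39 (f 38) (f 39))) (n 42 (n
  41 (f 40) (f 41)) (n 43 (f 42) (n 44 (f 43) (f 44))))) (n 51 (n 48 (n 46 (f 45) (n 47 (f 46)
  (f 47))) (n 49 (f 48) (n 50 (f 49) (f 50)))) (n 55 (n 53 (n 52 (f 51) (f 52)) (n 54 (f 53) (f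
  54))) (n 57 (n 56 (f 55) (f 56)) (n 58 (f 57) (f 58))))))) (n 95 (n 77 (n 67 (n 63 (n 61 (n 60
  (f 59) (f 60)) (n 62 (f 61) (f 62))) (n 65 (n 64 (f 63) (f 64)) (n 66 (f 65) (f 66)))) (n 72
  (n 69 (n 68 (f 67) (f 68)) (n 70 (f 69) (n 71 (f 70) (f 71)))) (n 74 (n 73 (f 72) (f 73)) (n
  75 (f 74) (n 76 (f 75) (f 76)))))) (n 87 (n 82 (n 80 (n 79 (n 78 (f 77) (f 78)) (f 79)) (n 81
  (f 80) (f 81))) (n 85 (n 84 (n 83 (f 82) (f 83)) (f 84)) (n 86 (f 85) (f 86)))) (n 91 (n 89 (n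
  88 (f 87) (f 88)) (n 90 (f 89) (f 90))) (n 93 (n 92 (f 91) (f 92)) (n 94 (f 93) (f 94)))))) (n
  108 (n 102 (n 99 (n 97 (n 96 (f 95) (f 96)) (n 98 (f 97) (f 98))) (n 101 (n 100 (f 99) (f
  100)) (f 101))) (n 105 (n 104 (n 103 (f 102) (f 103)) (f 104)) (n 107 (n 106 (f 105) (f 106))
  (f 107)))) (n 113 (n 111 (n 110 (n 109 (f 108) (f 109)) (f 110)) (n 112 (f 111) (f 112))) (n
  115 (n 114 (f 113) (f 114)) (n 116 (f 115) (f 116)))))))) (n 222 (n 161 (n 137 (n 127 (n 122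
  (n 120 (n 119 (n 118 (f 117) (f 118)) (f 119)) (n 121 (f 120) (f 121))) (n 124 (n 123 (f 122)
  (f 123)) (n 126 (n 125 (f 124) (f 125)) (f 126)))) (n 132 (n 130 (n 129 (n 128 (f 127) (f
  128)) (f 129)) (n 131 (f 130) (f 131))) (n 135 (n 134 (n 133 (f 132) (f 133)) (f 134)) (n 136
  (f 135) (f 136))))) (n 147 (n 142 (n 139 (n 138 (f 137) (f 138)) (n 140 (f 139) (n 141 (f 140)
  (f 141)))) (n 144 (n 143 (f 142) (f 143)) (n 145 (f 144) (n 146 (f 145) (f 146))))) (n 153 (n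
  149 (n 148 (f 147) (f 148)) (n 151 (n 150 (f 149) (f 150)) (n 152 (f 151) (f 152)))) (n 157 (n
  155 (n 154 (f 153) (f 154)) (n 156 (f 155) (f 156))) (n 159 (n 158 (f 157) (f 158)) (n 160 (f
  159) (f 160))))))) (n 199 (n 180 (n 170 (n 165 (n 163 (n 162 (f 161) (f 162)) (n 164 (f 163)
  (f 164))) (n 167 (n 166 (f 165) (f 166)) (n 168 (f 167) (n 169 (f 168) (f 169))))) (n 175 (n
  172 (n 171 (f 170) (f 171)) (n 173 (f 172) (n 174 (f 173) (f 174)))) (n 177 (n 176 (f 175) (f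
  176)) (n 178 (f 177) (n 179 (f 178) (f 179)))))) (n 190 (n 185 (n 183 (n 181 (f 180) (n 182 (f
  181) (f 182))) (n 184 (f 183) (f 184))) (n 188 (n 187 (n 186 (f 185) (f 186)) (f 187)) (n 189
  (f 188) (f 189)))) (n 195 (n 193 (n 192 (n 191 (f 190) (f 191)) (f 192)) (n 194 (f 193) (f
  194))) (n 197 (n 196 (f 195) (f 196)) (n 198 (f 197) (f 198)))))) (n 213 (n 207 (n 203 (n 201
  (n 200 (f 199) (f 200)) (n 202 (f 201) (f 202))) (n 205 (n 204 (f 203) (f 204)) (n 206 (f 205)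
  (f 206)))) (n 211 (n 209 (n 208 (f 207) (f 208)) (n 210 (f 209) (f 210))) (n 212 (f 211) (f
  212)))) (n 218 (n 216 (n 215 (n 214 (f 213) (f 214)) (f 215)) (n 217 (f 216) (f 217))) (n 220
  (n 219 (f 218) (f 219)) (n 221 (f 220) (f 221))))))) (n 253 (n 239 (n 231 (n 227 (n 225 (n 224
  (n 223 (f 222) (f 223)) (f 224)) (n 226 (f 225) (f 226))) (n 229 (n 228 (f 227) (f 228)) (n
  230 (f 229) (f 230)))) (n 235 (n 233 (n 232 (f 231) (f 232)) (n 234 (f 233) (f 234))) (n 237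
  (n 236 (f 235) (f 236)) (n 238 (f 237) (f 238))))) (n 248 (n 243 (n 241 (n 240 (f 239) (f
  240)) (n 242 (f 241) (f 242))) (n 246 (n 245 (n 244 (f 243) (f 244)) (f 245)) (n 247 (f 246)
  (f 247)))) (n 251 (n 250 (n 249 (f 248) (f 249)) (f 250)) (n 252 (f 251) (f 252))))) (n 255 (n
  254 (f 253) (f 254)) (f 255))))

def ts : Fin 10 → Tr := ![t0, t1, t2, t3, t4, t5, t6, t7, t8, t9]

lemma c1 : ∀ i, ok (ts i) = true := by decide +kernel

lemma c2 : ∀ i, ∀ j < 256, lf (ts i) j = j := by decide +kernel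

lemma c3 : ∀ j < 256, ∑ i, val (ts i) j j ≤ 1578 ∧ ∑ i, val (ts i) j (j + 1) ≤ 1578 := by
  decide +kernel

noncomputable def sig : PMF Strat := (PMF.uniformOfFintype (Fin 10)).map (fun i => strat (ts i))

lemma exp_sig (h : ℝ) : ∑' S, sig S * payoff S h = ∑ i, 10⁻¹ * payoff (strat (ts i)) h := by
  classical
  simp only [sig, PMF.map_apply, ← ENNReal.tsum_mul_right]
  rw [ENNReal.tsum_comm, tsum_fintype]
  refine Finset.sum_congr rfl fun i _ => ?_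
  rw [tsum_eq_single (strat (ts i))]
  · simp
  · intro S hS; simp [hS]

lemma upper (h : ℝ) (h0 : 0 ≤ h) (h1 : h ≤ 1) :
    ∑' S, sig S * payoff S h ≤ ENNReal.ofReal 0.621 := by
  obtain ⟨j, hj, k1, k2, k3⟩ : ∃ j : ℕ, j < 256 ∧ (j : ℝ) ≤ 256 * h ∧ 256 * h ≤ j + 1 ∧
      ∀ g : ℕ, g < 256 → (h < g / 256 ↔ j < g) := by
    rcases eq_or_lt_of_le h1 with e | e
    · refine ⟨255, by norm_num, by rw [e]; norm_num, by rw [e]; norm_num, fun g hg => ?_⟩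
      have : (g : ℝ) < 256 := by exact_mod_cast hg
      constructor
      · intro hh; linarith
      · intro hh; omega
    · have h2 : 0 ≤ 256 * h := by linarith
      refine ⟨⌊256 * h⌋₊, (Nat.floor_lt h2).2 (by push_cast; linarith), Nat.floor_le h2,
        (Nat.lt_floor_add_one _).le, fun g _ => ?_⟩
      rw [Nat.floor_lt h2]
      constructor <;> intro hh <;> linarith
  set c : Fin 10 → ℝ := fun i =>
    ((j + 1 - 256 * h) * val (ts i) j j + (256 * h - j) * val (ts i) j (j + 1) + 1) / 256 with hc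
  have a1 : 0 ≤ j + 1 - 256 * h := by linarith
  have a2 : 0 ≤ 256 * h - j := by linarith
  have hc0 : ∀ i, 0 ≤ c i := fun i => by rw [hc]; positivity
  have hp : ∀ i, payoff (strat (ts i)) h ≤ ENNReal.ofReal (c i) := fun i =>
    payoff_le _ _ _ fun m => by
      have := strat_ps j h k1 k2 k3 (ts i) (c1 i) (c2 i j hj) m
      simp only [hc]; linarith
  rw [exp_sig]
  calc _ ≤ ∑ i, ENNReal.ofReal (10⁻¹ * c i) := Finset.sum_le_sum fun i _ => by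
        rw [ENNReal.ofReal_mul (by norm_num), ENNReal.ofReal_inv_of_pos (by norm_num)]
        simp only [ENNReal.ofReal_ofNat]
        exact mul_le_mul_right (hp i) _
    _ = ENNReal.ofReal (∑ i, 10⁻¹ * c i) :=
        (ENNReal.ofReal_sum_of_nonneg fun i _ => by have := hc0 i; positivity).symm
    _ ≤ _ := by
        apply ENNReal.ofReal_le_ofReal
        obtain ⟨b1, b2⟩ := c3 j hj
        have b1' : ∑ i, (val (ts i) j j : ℝ) ≤ 1578 := by exact_mod_cast b1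
        have b2' : ∑ i, (val (ts i) j (j + 1) : ℝ) ≤ 1578 := by exact_mod_cast b2
        have e : ∑ i, 10⁻¹ * c i = ((j + 1 - 256 * h) * ∑ i, (val (ts i) j j : ℝ) +
            (256 * h - j) * ∑ i, (val (ts i) j (j + 1) : ℝ) + 10) / 2560 := by
          simp only [hc, Fin.sum_univ_succ, Fin.sum_univ_zero]; ring
        rw [e]
        have := mul_le_mul_of_nonneg_left b1' a1
        have := mul_le_mul_of_nonneg_left b2' a2
        norm_num
        linarith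

theorem result : ∃ σ : PMF Strat, Legal σ ∧
    ∀ (lam : ℤ → ℝ) (v : ENNReal), IsAlpern lam v → guaranteed σ < v := by
  refine ⟨sig, ?_, fun lam v H => ?_⟩
  · intro S hS l
    rw [sig, PMF.mem_support_map_iff] at hS
    obtain ⟨i, -, rfl⟩ := hS
    exact strat_mem _ (c1 i) l
  · refine lt_of_le_of_lt (iSup₂_le fun h hh => upper h hh.1 hh.2) (lt_of_lt_of_le ?_ (alp_ge lam v H))
    rw [ENNReal.ofReal_lt_ofReal_iff (by norm_num)]
    norm_num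

end Pool.Agent.Results.MP_a09a4b_an.HighLow
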